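import Pool.Agent.Helper36.SPR.St

/-!
Module FB of project SPR (MP_343216_nt): fibres of the set of popular ratios.
-/

set_option autoImplicit false

namespace Pool.Agent.Helper67.SPR

open Finset Pool.Agent.Helper36.SPR

theorem hFB : StFB := by
  classical
  intro m n _ _ S B M hmn hS hB hagr v
  set g : (ZMod n)ˣ → ZMod m := fun c => ZMod.cast (c : ZMod n) with hg
  have hgmul : ∀ a b : (ZMod n)ˣ, g (a * b) = g a * g b := by
    intro a b
    have h := map_mul (ZMod.castHom hmn (ZMod m)) (a : ZMod n) (b : ZMod n)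
    simpa only [ZMod.castHom_apply, hg, Units.val_mul] using h
  have hg1 : g 1 = 1 := by
    have h := map_one (ZMod.castHom hmn (ZMod m))
    simpa only [ZMod.castHom_apply, hg, Units.val_one] using h
  set F := B.filter (fun c : (ZMod n)ˣ => (ZMod.cast (c : ZMod n) : ZMod m) = v) with hF
  rcases F.eq_empty_or_nonempty with hFe | ⟨c₀, hc₀⟩
  · rw [hFe]
    simp only [card_empty, Nat.cast_zero]
    positivity
  have hSpos : (0 : ℝ) < S.card := by exact_mod_cast hS.card_pos
  have hc₀B : c₀ ∈ B := (mem_filter.mp hc₀).1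
  have hv : g c₀ = v := (mem_filter.mp hc₀).2
  have hMpos : 0 < M := by
    have h1 := hB c₀ hc₀B
    by_contra hM
    have h2 : 2 * M * ((S.filter (fun s => c₀ * s ∈ S)).card : ℝ) ≤ 0 :=
      mul_nonpos_of_nonpos_of_nonneg (by linarith [not_lt.mp hM]) (Nat.cast_nonneg _)
    linarith
  -- the unit of `ZMod m` above `v`
  have hinv : g c₀⁻¹ * v = 1 := by
    rw [← hv, ← hgmul, inv_mul_cancel, hg1]
  -- counting function
  set N : ZMod m → ℕ := fun u => (S.filter (fun s => g s = u)).card with hN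
  set Tv := (S ×ˢ S).filter (fun x => g x.2 = v * g x.1) with hTv
  have hTvc : Tv.card = ∑ u, N u * N (v * u) := by
    rw [Finset.card_eq_sum_card_fiberwise (f := fun x => g x.1) (t := univ)
      (fun _ _ => mem_coe.mpr (mem_univ _))]
    refine Finset.sum_congr rfl fun u _ => ?_
    rw [hN]
    simp only
    rw [← card_product]
    congr 1
    ext ⟨a, b⟩
    simp only [hTv, mem_filter, mem_product]
    constructor
    · rintro ⟨⟨⟨ha, hb⟩, h1⟩, h2⟩
      exact ⟨⟨ha, h2⟩, hb, by rw [h1, h2]⟩
    · rintro ⟨⟨ha, h2⟩, hb, h1⟩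
      exact ⟨⟨⟨ha, hb⟩, by rw [h1, h2]⟩, h2⟩
  have hagrc : agr m S = ∑ u, N u * N u := by
    unfold agr
    rw [Finset.card_eq_sum_card_fiberwise (f := fun x => g x.1) (t := univ)
      (fun _ _ => mem_coe.mpr (mem_univ _))]
    refine Finset.sum_congr rfl fun u _ => ?_
    rw [hN]
    simp only
    rw [← card_product]
    congr 1
    ext ⟨a, b⟩
    simp only [mem_filter, mem_product]
    constructor
    · rintro ⟨⟨⟨ha, hb⟩, h1⟩, h2⟩
      exact ⟨⟨ha, h2⟩, hb, by rw [← h2]; exact h1.symm⟩
    · rintro ⟨⟨ha, h2⟩, hb, h1⟩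
      exact ⟨⟨⟨ha, hb⟩, by change g a = g b; rw [h1, h2]⟩, h2⟩
  have hinj : Function.Injective (fun u : ZMod m => v * u) := by
    intro a b hab
    simp only at hab
    calc a = (g c₀⁻¹ * v) * a := by rw [hinv, one_mul]
      _ = (g c₀⁻¹ * v) * b := by rw [mul_assoc, hab, mul_assoc]
      _ = b := by rw [hinv, one_mul]
  have hbij : Function.Bijective (fun u : ZMod m => v * u) :=
    Finite.injective_iff_bijective.mp hinj
  have hshift : ∑ u, N (v * u) * N (v * u) = ∑ u, N u * N u :=
    Function.Bijective.sum_comp hbij (fun u => N u * N u)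
  have hle : Tv.card ≤ agr m S := by
    have h2 : 2 * Tv.card ≤ ∑ u, N u * N u + ∑ u, N (v * u) * N (v * u) := by
      rw [hTvc, Finset.mul_sum, ← Finset.sum_add_distrib]
      refine Finset.sum_le_sum fun u _ => ?_
      have h3 := two_mul_le_add_sq (N u) (N (v * u))
      nlinarith [h3]
    rw [hshift, ← hagrc] at h2
    omega
  -- injection of the pairs
  have hsum : ∑ c ∈ F, (S.filter (fun s => c * s ∈ S)).card ≤ Tv.card := by
    rw [← card_sigma]
    refine Finset.card_le_card_of_injOn (fun x => (x.2, x.1 * x.2)) ?_ ?_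
    · rintro ⟨c, s⟩ hx
      simp only [coe_sigma, Set.mem_sigma_iff, mem_coe, mem_filter] at hx
      obtain ⟨hc, hs, hcs⟩ := hx
      simp only [hTv, coe_filter, mem_product, Set.mem_ofPred_eq]
      refine ⟨⟨hs, hcs⟩, ?_⟩
      rw [hgmul]
      have : g c = v := (mem_filter.mp hc).2
      rw [this]
    · rintro ⟨c, s⟩ _ ⟨c', s'⟩ _ h
      simp only [Prod.mk.injEq] at h
      obtain ⟨h1, h2⟩ := h
      subst h1
      have : c = c' := mul_right_cancel h2
      subst this
      rfl
  have hfin : (F.card : ℝ) * S.card ≤ 2 * M ^ 2 * S.card := by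
    calc (F.card : ℝ) * S.card = ∑ c ∈ F, (S.card : ℝ) := by
          rw [Finset.sum_const, nsmul_eq_mul]
      _ ≤ ∑ c ∈ F, 2 * M * ((S.filter (fun s => c * s ∈ S)).card : ℝ) :=
          Finset.sum_le_sum fun c hc => hB c (mem_filter.mp hc).1
      _ = 2 * M * ((∑ c ∈ F, (S.filter (fun s => c * s ∈ S)).card : ℕ) : ℝ) := by
          rw [← Finset.mul_sum]
          push_cast
          rfl
      _ ≤ 2 * M * (agr m S : ℝ) := by
          refine mul_le_mul_of_nonneg_left ?_ (by positivity)
          exact_mod_cast hsum.trans hle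
      _ ≤ 2 * M * (M * S.card) := mul_le_mul_of_nonneg_left hagr (by positivity)
      _ = 2 * M ^ 2 * S.card := by ring
  exact le_of_mul_le_mul_right hfin hSpos

end Pool.Agent.Helper67.SPR
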